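import Pool.Agent.Helper94.PU.Pl
open MeasureTheory Metric Set Filter Topology Real
open scoped ENNReal NNReal

/-!
Row CNTA of project PU: internal edges of one frame.
-/

namespace H11ST
namespace PU
namespace CntA72

theorem tri_mem {S : Set (E 2)} {y : E 2} {u : Fin 3 → E 2} {ε : ℝ} (h : Tri S y u ε) : y ∈ S := by
  have h1 : y ∈ S ∩ ball y ε := by
    rw [h.eq]
    exact ⟨0, 0, le_refl _, h.pos, by simp⟩
  exact h1.1

theorem ta_mem {S : Set (E 2)} {τ ν y : E 2} (h : TA S τ ν y) : y ∈ S := by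
  obtain ⟨u, ε, hT⟩ := h.tri
  exact tri_mem hT

/-- points of a segment in the direction `τ` -/
theorem seg_pts {y τ : E 2} {s : ℝ} (hs : 0 ≤ s) {v : E 2} (hv : v ∈ segment ℝ y (y + s • τ)) :
    ∃ s', 0 ≤ s' ∧ s' ≤ s ∧ v = y + s' • τ := by
  rw [segment_eq_image'] at hv
  obtain ⟨θ, ⟨h0, h1⟩, rfl⟩ := hv
  refine ⟨θ * s, by positivity, by nlinarith, ?_⟩
  simp only [add_sub_cancel_left, smul_smul]

theorem pts_seg {y τ : E 2} {s s' : ℝ} (h0 : 0 ≤ s') (h1 : s' ≤ s) :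
    y + s' • τ ∈ segment ℝ y (y + s • τ) := by
  rw [segment_eq_image']
  rcases eq_or_lt_of_le (h0.trans h1) with hs | hs
  · refine ⟨0, ⟨le_refl _, zero_le_one⟩, ?_⟩
    have : s' = 0 := by linarith
    simp [this]
  · refine ⟨s' / s, ⟨by positivity, by rw [div_le_one hs]; exact h1⟩, ?_⟩
    simp only [add_sub_cancel_left, smul_smul]
    rw [div_mul_cancel₀ _ hs.ne']

theorem oseg_pts {y τ : E 2} {s : ℝ} (hs : 0 < s) {v : E 2}
    (hv : v ∈ openSegment ℝ y (y + s • τ)) : ∃ s', 0 < s' ∧ s' < s ∧ v = y + s' • τ := by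
  rw [openSegment_eq_image'] at hv
  obtain ⟨θ, ⟨h0, h1⟩, rfl⟩ := hv
  refine ⟨θ * s, by positivity, by nlinarith, ?_⟩
  simp only [add_sub_cancel_left, smul_smul]

/-- the numerical facts at the right end point -/
theorem num {x η s : ℝ} (hs : 0 < s) (hη : η ≤ 1 / 2) (h1 : |x| ≤ 1 / 2 + 3 / 5 * η) (h2 : x ≤ η)
    (hb : (x + s) ^ 2 + (η - 1) ^ 2 < 1)
    (hr : ∀ s', 0 ≤ s' → s' ≤ s → (49 / 50 : ℝ) ^ 2 < (x + s') ^ 2 + (η - 1) ^ 2) :
    |x + s| ≤ 1 / 2 + 3 / 5 * η := by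
  have hη0 : 0 < η := by nlinarith [sq_nonneg (x + s)]
  rw [abs_le] at h1 ⊢
  refine ⟨by linarith [h1.1], ?_⟩
  by_cases hx : 0 < x
  · have h3 := hr 0 le_rfl hs.le
    rw [add_zero] at h3
    have h4 : η < 1 / 40 := by
      by_contra h5
      have h6 : x ^ 2 ≤ η ^ 2 := by nlinarith
      nlinarith
    have h5 : (x + s) ^ 2 < 1 / 20 := by nlinarith
    nlinarith
  · by_cases hx2 : x + s ≤ 0
    · linarith
    · have h3 := hr (-x) (by linarith) (by linarith)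
      rw [add_neg_cancel] at h3
      have h4 : η < 1 / 40 := by
        by_contra h5
        nlinarith
      have h5 : (x + s) ^ 2 < 1 / 20 := by nlinarith
      nlinarith

/-- the right end point lies in the region -/
theorem inG_right {ρ₀ : ℝ} (hρ : 49 / 50 ≤ ρ₀) {τ ν y : E 2} (hF : Fr τ ν) (hG : InG τ ν y)
    (hx : inner ℝ y τ ≤ 1 + inner ℝ y ν) {s : ℝ} (hs : 0 < s) (hb : ‖y + s • τ‖ < 1)
    (hr : ∀ s', 0 ≤ s' → s' ≤ s → ρ₀ < ‖y + s' • τ‖) : InG τ ν (y + s • τ) := by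
  have e1 : ∀ s' : ℝ, inner ℝ (y + s' • τ) τ = inner ℝ y τ + s' := by
    intro s'
    rw [inner_add_left, inner_smul_left, hF.tt]
    simp
  have e2 : ∀ s' : ℝ, inner ℝ (y + s' • τ) ν = (inner ℝ y ν : ℝ) := by
    intro s'
    rw [inner_add_left, inner_smul_left, hF.o]
    simp
  have e3 : ∀ s' : ℝ, ‖y + s' • τ‖ ^ 2 = (inner ℝ y τ + s') ^ 2 + (1 + inner ℝ y ν - 1) ^ 2 := by
    intro s'
    rw [hF.sq, e1, e2]
    ring
  refine ⟨?_, ?_⟩
  · rw [e1, e2]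
    refine num hs hG.2 hG.1 hx ?_ ?_
    · rw [← e3]
      have := norm_nonneg (y + s • τ)
      nlinarith
    · intro s' h0 h1
      rw [← e3]
      have := hr s' h0 h1
      nlinarith
  · rw [e2]
    exact hG.2

theorem cnta (hUP : ST_UP) (hCUT : ST_CUT) : ST_CNTA := by
  intro A S ρ₀ P hB τ ν hF Y hY
  choose! s hs0 hRay hTA hn hρ using fun y (hy : y ∈ Y) => (hY y hy).2.2.2.2
  have hmem : ∀ y ∈ Y, ∀ s', 0 ≤ s' → s' ≤ s y → y + s' • τ ∈ S := by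
    intro y hy s' h0 h1
    rcases eq_or_lt_of_le h0 with h2 | h2
    · rw [← h2, zero_smul, add_zero]
      exact ta_mem (hY y hy).1
    · rcases eq_or_lt_of_le h1 with h3 | h3
      · rw [h3]
        exact ta_mem (hTA y hy)
      · obtain ⟨ε, hL⟩ := hRay y hy s' h2 h3
        exact hL.z_mem
  have hlt : ∀ y ∈ Y, ρ₀ < ‖y‖ := by
    intro y hy
    have := hρ y hy 0 le_rfl (hs0 y hy).le
    rwa [zero_smul, add_zero] at this
  have hC : ∀ y ∈ Y, ∃ z ∈ P, ∃ C : Set (E 2), IsPreconnected C ∧ C ⊆ S ∧ y ∈ C ∧ z ∈ C ∧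
      (∀ v ∈ C, ¬ ∃ ε, Lin S v τ ε) := by
    intro y hy
    obtain ⟨z, hz, C, h1, h2, h3, h4, h5, -⟩ :=
      hUP A S ρ₀ P hB τ ν y hF (hY y hy).1 (hY y hy).2.1 (hlt y hy) (hY y hy).2.2.1
    exact ⟨z, hz, C, h1, h2, h3, h4, h5⟩
  have hD : ∀ y ∈ Y, ∃ z ∈ P, ∃ C : Set (E 2), IsPreconnected C ∧ C ⊆ S ∧ y + s y • τ ∈ C ∧
      z ∈ C ∧ (∀ v ∈ C, ¬ ∃ ε, Lin S v τ ε) := by
    intro y hy
    have hG : InG (-τ) ν (y + s y • τ) :=
      (inG_right hB.r0 hF (hY y hy).2.1 (hY y hy).2.2.2.1 (hs0 y hy) (hn y hy) (hρ y hy)).neg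
    obtain ⟨z, hz, C, h1, h2, h3, h4, h5, -⟩ :=
      hUP A S ρ₀ P hB (-τ) ν (y + s y • τ) hF.neg (hTA y hy) hG
        (hρ y hy (s y) (hs0 y hy).le le_rfl) (hn y hy)
    refine ⟨z, hz, C, h1, h2, h3, h4, fun v hv => ?_⟩
    rintro ⟨ε, hL⟩
    exact h5 v hv ⟨ε, hL.neg⟩
  choose! zc hzc C hC1 hC2 hC3 hC4 hC5 using hC
  choose! zd hzd D hD1 hD2 hD3 hD4 hD5 using hD
  have hopen : ∀ y ∈ Y, ∀ v ∈ openSegment ℝ y (y + s y • τ), ∃ ε, Lin S v τ ε := by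
    intro y hy v hv
    obtain ⟨s', h0, h1, rfl⟩ := oseg_pts (hs0 y hy) hv
    exact hRay y hy s' h0 h1
  have key := hCUT A S hB.L hB.cl {y // y ∈ Y} (fun i => i.1) (fun i => i.1 + s i.1 • τ)
    (fun i => C i.1) (fun i => D i.1) P ?_ ?_ ?_ ?_ ?_ ?_ ?_ ?_ ?_ ?_
  · rwa [Fintype.card_coe] at key
  · rintro ⟨y, hy⟩ h
    have h1 : s y • τ = 0 := by
      have h2 : y = y + s y • τ := h
      exact (left_eq_add.1 h2)
    rcases smul_eq_zero.1 h1 with h2 | h2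
    · exact (hs0 y hy).ne' h2
    · have := hF.t1
      rw [h2, norm_zero] at this
      norm_num at this
  · rintro ⟨y, hy⟩
    rw [mem_ball_zero_iff]
    exact (hY y hy).2.2.1
  · rintro ⟨y, hy⟩
    rw [mem_ball_zero_iff]
    exact hn y hy
  · rintro ⟨y, hy⟩ v hv
    obtain ⟨s', h0, h1, rfl⟩ := seg_pts (hs0 y hy).le hv
    exact hmem y hy s' h0 h1
  · rintro ⟨y, hy⟩ v hv
    obtain ⟨s', h0, h1, rfl⟩ := oseg_pts (hs0 y hy) hv
    obtain ⟨ε, hL⟩ := hRay y hy s' h0 h1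
    refine ⟨min ε (min s' (s y - s')), lt_min hL.pos (lt_min h0 (by linarith)), ?_⟩
    rintro w ⟨hwS, hwb⟩
    have hw1 : w ∈ S ∩ ball (y + s' • τ) ε :=
      ⟨hwS, ball_subset_ball (min_le_left _ _) hwb⟩
    rw [hL.eq] at hw1
    obtain ⟨r, hr, rfl⟩ := hw1
    rw [mem_ball, fdist_line hF.t1] at hwb
    have h2 : |r| < s' := hwb.trans_le ((min_le_right _ _).trans (min_le_left _ _))
    have h3 : |r| < s y - s' := hwb.trans_le ((min_le_right _ _).trans (min_le_right _ _))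
    rw [abs_lt] at h2 h3
    have h4 : y + s' • τ + r • τ = y + (s' + r) • τ := by rw [add_smul, add_assoc]
    rw [h4]
    exact pts_seg (by linarith [h2.1]) (by linarith [h3.2])
  · rintro ⟨y, hy⟩ ⟨y', hy'⟩ hne
    rw [Set.disjoint_left]
    intro v hv hv'
    obtain ⟨p, hp0, hp1, rfl⟩ := oseg_pts (hs0 y hy) hv
    obtain ⟨q, hq0, hq1, hq⟩ := oseg_pts (hs0 y' hy') hv'
    have hne' : y ≠ y' := fun h => hne (by simp [h])
    rcases lt_trichotomy p q with h | h | h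
    · -- y is in the open segment of y'
      have h1 : y = y' + (q - p) • τ := by
        rw [sub_smul, ← add_sub_assoc, ← hq, add_sub_cancel_right]
      obtain ⟨ε, hL⟩ := hRay y' hy' (q - p) (by linarith) (by linarith)
      rw [← h1] at hL
      exact (hY y hy).1.not_lin hL
    · subst h
      exact hne' (add_right_cancel hq)
    · have h1 : y' = y + (p - q) • τ := by
        rw [sub_smul, ← add_sub_assoc, hq, add_sub_cancel_right]
      obtain ⟨ε, hL⟩ := hRay y hy (p - q) (by linarith) (by linarith)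
      rw [← h1] at hL
      exact (hY y' hy').1.not_lin hL
  · rintro ⟨y, hy⟩
    exact ⟨hC1 y hy, hC2 y hy, hC3 y hy, zc y, hzc y hy, hC4 y hy⟩
  · rintro ⟨y, hy⟩
    exact ⟨hD1 y hy, hD2 y hy, hD3 y hy, zd y, hzd y hy, hD4 y hy⟩
  · rintro ⟨y, hy⟩ ⟨y', hy'⟩
    rw [Set.disjoint_left]
    intro v hv hv'
    exact hC5 y hy v hv (hopen y' hy' v hv')
  · rintro ⟨y, hy⟩ ⟨y', hy'⟩
    rw [Set.disjoint_left]
    intro v hv hv'
    exact hD5 y hy v hv (hopen y' hy' v hv')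

end CntA72

theorem cnta (hUP : ST_UP) (hCUT : ST_CUT) : ST_CNTA := CntA72.cnta hUP hCUT

end PU
end H11ST
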